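import Mathlib
import Pool.Prelude.Def_F_c31e40fa
import Pool.Agent.H712R2.MultibrotConnected
import Pool.Agent.R719.ML.Baire

set_option autoImplicit false

/-! # Local connectivity of the Mandelbrot set and thin sets of critical orbits

(1) A parameter at which the Mandelbrot set is not locally connected lies in arbitrarily small,
nondegenerate continua of such parameters.
(2) Let `T n j` be closed totally disconnected subsets of the plane. The Mandelbrot set is locally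
connected if and only if it is so at the boundary parameters `c` for which, for all `n ≥ 1`, the point
`f_c^n (0)` is in none of the sets `T n j`.
(3) Let `n ≥ 1` and let `A`, `B` be dense sets of real numbers. It is enough to consider the parameters
`c` with `Re f_c^n (0) ∈ A` or `Im f_c^n (0) ∈ B`.
(4) It is enough to consider the parameters for which every point of the critical orbit has a real or
an imaginary part which is a Liouville number or rational.

Outline. The theorem (1) holds for all continua in the plane, and is classical. In a nondegenerate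
continuum the complement of a totally disconnected closed set is open and dense, by boundary bumping;
the inverse image of such a set under the polynomial `c ↦ f_c^n (0)` is a set of the same kind, since
the polynomial has finite fibres. So (2) follows from (1) and Baire's theorem. -/

open Filter Topology Set Metric N62a1eb23

namespace Pool.Agent.Results.MP_c6f924_an.LiouvilleOrbits

/-- The map `z ↦ z ^ 2 + c`. -/
def f (c : ℂ) : ℂ → ℂ := fun z => z ^ 2 + c

/-- `K` is locally connected at `c` in the weak sense (connected im kleinen): the points of `K`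
close to `c` are joined to `c` by small connected subsets of `K`. -/
def LocallyConnectedAt (K : Set ℂ) (c : ℂ) : Prop :=
  ∀ ε : ℝ, 0 < ε → ∃ δ : ℝ, 0 < δ ∧ ∀ q ∈ K, dist q c < δ →
    ∃ C ⊆ K ∩ ball c ε, IsPreconnected C ∧ c ∈ C ∧ q ∈ C

/-- Liouville numbers and rational numbers. -/
def LiouvilleOrRational (x : ℝ) : Prop := Liouville x ∨ ∃ q : ℚ, x = q

open Pool.Agent.R719.ML

theorem cont {p : ℂ} (hp : ¬ LocallyConnectedAt mandelbrotSet p) {ε : ℝ} (hε : 0 < ε) :
    ∃ L ⊆ frontier mandelbrotSet ∩ ball p ε, IsPreconnected L ∧ IsCompact L ∧ p ∈ L ∧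
      (∃ w ∈ L, w ≠ p) ∧ ∀ z ∈ L, ¬ LocallyConnectedAt mandelbrotSet z := by
  have hK : IsCompact mandelbrotSet := Pool.Agent.H712R2.isCompact_multibrot (d := 2) le_rfl
  have hc : IsPreconnected mandelbrotSet :=
    (Pool.Agent.H712R2.isConnected_multibrot (d := 2) le_rfl).isPreconnected
  obtain ⟨ε', hε', h⟩ := continuum hK hc hp
  have hm : 0 < min ε ε' := lt_min hε hε'
  obtain ⟨L, hL, h1, h2, h3, ⟨w, hw, hwp⟩, h5⟩ := h (min ε ε' / 2) (by linarith) (by
    have := min_le_right ε ε'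
    linarith)
  refine ⟨L, ?_, h1, hK.of_isClosed_subset h2 (hL.trans inter_subset_left), h3, ⟨w, hw, ?_⟩, h5⟩
  · intro z hz
    obtain ⟨hzK, hzb⟩ := hL hz
    refine ⟨⟨subset_closure hzK, fun hi => h5 z hz (cik_int hi)⟩, ?_⟩
    rw [mem_closedBall] at hzb
    rw [mem_ball]
    have := min_le_left ε ε'
    linarith
  · rintro rfl
    rw [dist_self] at hwp
    linarith

theorem reduce (Q : ℂ → Prop)
    (h : ∀ (p : ℂ) (ε : ℝ), ¬ LocallyConnectedAt mandelbrotSet p → 0 < ε →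
      ∃ c ∈ frontier mandelbrotSet, dist c p < ε ∧ Q c ∧ ¬ LocallyConnectedAt mandelbrotSet c) :
    LocallyConnectedSpace mandelbrotSet ↔
      ∀ c ∈ frontier mandelbrotSet, Q c → LocallyConnectedAt mandelbrotSet c := by
  have hcl : IsClosed mandelbrotSet :=
    (Pool.Agent.H712R2.isCompact_multibrot (d := 2) le_rfl).isClosed
  constructor
  · intro h1 c hc _
    exact Pool.Agent.R240.Loc.lcs_iff.1 h1 c (hcl.frontier_subset hc)
  · intro h1
    refine Pool.Agent.R240.Loc.lcs_iff.2 fun p _ => ?_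
    by_contra hcon
    obtain ⟨c, hc, -, hQ, h2⟩ := h p 1 hcon one_pos
    exact h2 (h1 c hc hQ)

theorem near (T : ℕ → ℕ → Set ℂ) (hT : ∀ n j, IsClosed (T n j))
    (hT' : ∀ n j, IsTotallyDisconnected (T n j)) (p : ℂ) (ε : ℝ)
    (hp : ¬ LocallyConnectedAt mandelbrotSet p) (hε : 0 < ε) :
    ∃ c ∈ frontier mandelbrotSet, dist c p < ε ∧ (∀ n j, 1 ≤ n → (f c)^[n] 0 ∉ T n j) ∧
      ¬ LocallyConnectedAt mandelbrotSet c := by
  obtain ⟨L, hL, h1, h2, h3, ⟨w, hw, hwp⟩, h5⟩ := cont hp hε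
  obtain ⟨z, hz, h⟩ := baire (ι := ℕ × ℕ) h2 h1 h3 hw hwp.symm
    (fun i => {c : ℂ | (fun z : ℂ => z ^ 2 + c)^[i.1 + 1] 0 ∈ T (i.1 + 1) i.2})
    (fun i => pre_closed _ (hT _ _)) (fun i => pre_disc _ (by omega) (hT' _ _))
  refine ⟨z, (hL hz).1, (hL hz).2, fun n j hn => ?_, h5 z hz⟩
  obtain ⟨m, rfl⟩ : ∃ m, n = m + 1 := ⟨n - 1, by omega⟩
  exact h (m, j)

theorem lines (n : ℕ) (hn : 1 ≤ n) (A B : Set ℝ) (hA : Dense A) (hB : Dense B) (p : ℂ) (ε : ℝ)
    (hp : ¬ LocallyConnectedAt mandelbrotSet p) (hε : 0 < ε) :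
    ∃ c ∈ frontier mandelbrotSet, dist c p < ε ∧
      (((f c)^[n] 0).re ∈ A ∨ ((f c)^[n] 0).im ∈ B) ∧ ¬ LocallyConnectedAt mandelbrotSet c := by
  obtain ⟨L, hL, h1, h2, h3, ⟨w, hw, hwp⟩, h5⟩ := cont hp hε
  obtain ⟨g, hg⟩ : ∃ g : ℂ → ℂ, g = fun c => (pol n).eval c := ⟨_, rfl⟩
  have hgc : Continuous g := by rw [hg]; exact (pol n).continuous
  have hgf : ∀ c, (f c)^[n] 0 = g c := fun c => by rw [hg]; exact (pol_eval n c).symm
  obtain ⟨a, ha, b, hb, hab⟩ : ∃ a ∈ L, ∃ b ∈ L, g a ≠ g b := by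
    by_contra hcon
    push Not at hcon
    refine (h1.infinite_of_nontrivial ⟨w, hw, p, h3, hwp⟩) ((fibre n hn (g p)).subset ?_)
    intro c hc
    have := hcon c hc p h3
    rw [hg] at this ⊢
    exact this
  have key : ∀ (u : ℂ → ℝ), Continuous u → u (g a) ≠ u (g b) → ∀ S : Set ℝ, Dense S →
      ∃ c ∈ L, u (g c) ∈ S := by
    intro u hu hne S hS
    have h6 : (fun c => u (g c)) '' L |>.OrdConnected :=
      (h1.image _ (hu.comp hgc).continuousOn).ordConnected
    rcases lt_or_gt_of_ne hne with h7 | h7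
    · obtain ⟨x, hx, hxS⟩ := hS.exists_between h7
      obtain ⟨c, hc, hcx⟩ := h6.out ⟨a, ha, rfl⟩ ⟨b, hb, rfl⟩ ⟨hxS.1.le, hxS.2.le⟩
      exact ⟨c, hc, by rw [show u (g c) = x from hcx]; exact hx⟩
    · obtain ⟨x, hx, hxS⟩ := hS.exists_between h7
      obtain ⟨c, hc, hcx⟩ := h6.out ⟨b, hb, rfl⟩ ⟨a, ha, rfl⟩ ⟨hxS.1.le, hxS.2.le⟩
      exact ⟨c, hc, by rw [show u (g c) = x from hcx]; exact hx⟩
  by_cases hre : (g a).re = (g b).re
  · obtain ⟨c, hc, h6⟩ := key Complex.im Complex.continuous_im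
      (fun him => hab (Complex.ext hre him)) B hB
    exact ⟨c, (hL hc).1, (hL hc).2, Or.inr (by rw [hgf]; exact h6), h5 c hc⟩
  · obtain ⟨c, hc, h6⟩ := key Complex.re Complex.continuous_re hre A hA
    exact ⟨c, (hL hc).1, (hL hc).2, Or.inl (by rw [hgf]; exact h6), h5 c hc⟩

theorem liou (p : ℂ) (ε : ℝ) (hp : ¬ LocallyConnectedAt mandelbrotSet p) (hε : 0 < ε) :
    ∃ c ∈ frontier mandelbrotSet, dist c p < ε ∧
      (∀ n, 1 ≤ n → LiouvilleOrRational ((f c)^[n] 0).re ∨ LiouvilleOrRational ((f c)^[n] 0).im) ∧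
      ¬ LocallyConnectedAt mandelbrotSet c := by
  obtain ⟨c, hc, h1, h2, h3⟩ := near (fun _ j => Tn (Nat.unpair j).1 (Nat.unpair j).2)
    (fun _ j => Tn_closed _ _) (fun _ j => Tn_disc _ _) p ε hp hε
  refine ⟨c, hc, h1, fun n hn => ?_, h3⟩
  by_contra hcon
  push Not at hcon
  obtain ⟨a, ha⟩ := Cn_mem hcon.1
  obtain ⟨b, hb⟩ := Cn_mem hcon.2
  refine h2 n (Nat.pair a b) hn ?_
  simp only [Nat.unpair_pair]
  exact ⟨ha, hb⟩

/-- **Local connectivity is decided at parameters with thin critical orbits.** -/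
theorem result :
    (∀ p : ℂ, ¬ LocallyConnectedAt mandelbrotSet p → ∀ ε : ℝ, 0 < ε →
      ∃ L ⊆ frontier mandelbrotSet ∩ ball p ε, IsPreconnected L ∧ IsCompact L ∧ p ∈ L ∧
        (∃ w ∈ L, w ≠ p) ∧ ∀ z ∈ L, ¬ LocallyConnectedAt mandelbrotSet z) ∧
    (∀ T : ℕ → ℕ → Set ℂ, (∀ n j, IsClosed (T n j)) → (∀ n j, IsTotallyDisconnected (T n j)) →
      (LocallyConnectedSpace mandelbrotSet ↔
        ∀ c ∈ frontier mandelbrotSet, (∀ n j, 1 ≤ n → (f c)^[n] 0 ∉ T n j) →
          LocallyConnectedAt mandelbrotSet c) ∧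
      ∀ (p : ℂ) (ε : ℝ), ¬ LocallyConnectedAt mandelbrotSet p → 0 < ε →
        ∃ c ∈ frontier mandelbrotSet, dist c p < ε ∧ (∀ n j, 1 ≤ n → (f c)^[n] 0 ∉ T n j) ∧
          ¬ LocallyConnectedAt mandelbrotSet c) ∧
    (∀ (n : ℕ), 1 ≤ n → ∀ A B : Set ℝ, Dense A → Dense B →
      (LocallyConnectedSpace mandelbrotSet ↔
        ∀ c ∈ frontier mandelbrotSet, (((f c)^[n] 0).re ∈ A ∨ ((f c)^[n] 0).im ∈ B) →
          LocallyConnectedAt mandelbrotSet c)) ∧
    (LocallyConnectedSpace mandelbrotSet ↔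
      ∀ c ∈ frontier mandelbrotSet, (∀ n, 1 ≤ n →
        LiouvilleOrRational ((f c)^[n] 0).re ∨ LiouvilleOrRational ((f c)^[n] 0).im) →
          LocallyConnectedAt mandelbrotSet c) := by
  refine ⟨fun p hp ε hε => cont hp hε, fun T hT hT' => ⟨?_, near T hT hT'⟩,
    fun n hn A B hA hB => ?_, ?_⟩
  · exact reduce (fun c => ∀ n j, 1 ≤ n → (f c)^[n] 0 ∉ T n j) (near T hT hT')
  · exact reduce (fun c => ((f c)^[n] 0).re ∈ A ∨ ((f c)^[n] 0).im ∈ B) (lines n hn A B hA hB)
  · exact reduce _ liou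

end Pool.Agent.Results.MP_c6f924_an.LiouvilleOrbits
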