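import Mathlib
import Pool.Prelude.Def_F_c31e40fa
import Pool.Agent.R240.Sparse

set_option autoImplicit false

open Filter Topology Set Metric MeasureTheory Complex N62a1eb23

namespace Pool.Agent.Results.MP_c6f924_an.SparseCentres

/-- The superattracting parameters of period dividing `n` in the open disc of radius `r` about
`c`: the parameters `a` such that `0` is periodic under `z ↦ z ^ 2 + a`. -/
def centres (n : ℕ) (c : ℂ) (r : ℝ) : Set ℂ :=
  {a | a ∈ ball c r ∧ (fun z : ℂ => z ^ 2 + a)^[n] 0 = 0}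

/-- `g` is proper of degree at most `2` from the bounded open set `U` onto a set which contains the
closure of `U`. Polynomial-like maps of degree `2` have this property. -/
def PolynomialLike (g : ℂ → ℂ) (U : Set ℂ) : Prop :=
  IsOpen U ∧ Bornology.IsBounded U ∧ closure U ⊆ g '' U ∧
    (∀ K ⊆ g '' U, IsCompact K → IsCompact {z | z ∈ U ∧ g z ∈ K}) ∧
    ∀ w ∈ g '' U, {z | z ∈ U ∧ g z = w}.encard ≤ 2

/-- `z ↦ z ^ 2 + c` is renormalizable of period `p`. -/
def Renormalizable (c : ℂ) (p : ℕ) : Prop :=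
  ∃ U : Set ℂ, PolynomialLike ((fun z : ℂ => z ^ 2 + c)^[p]) U ∧ (0 : ℂ) ∈ U ∧
    ∀ n : ℕ, 1 ≤ n → (fun z : ℂ => z ^ 2 + c)^[n * p] 0 ∈ U

/-- Sparse parameters. For `q = 1` and for every period `q` of renormalization, and for every
`κ < q`, all small discs of radius `r` about `c` contain at most `2 ^ n * r ^ κ + K * n`
superattracting parameters of period dividing `n`, for all `n` at the same time. -/
def Sparse (K : ℝ) (c : ℂ) : Prop :=
  ∀ q : ℕ, 1 ≤ q → (q = 1 ∨ Renormalizable c q) → ∀ κ : ℝ, 0 < κ → κ < q →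
    ∀ᶠ r : ℝ in 𝓝[>] 0, ∀ n : ℕ, 1 ≤ n → ((centres n c r).ncard : ℝ) ≤ 2 ^ n * r ^ κ + K * n

/-- `K` is locally connected at `c` in the weak sense (connected im kleinen): the points of `K`
close to `c` are joined to `c` by small connected subsets of `K`. -/
def LocallyConnectedAt (K : Set ℂ) (c : ℂ) : Prop :=
  ∀ ε : ℝ, 0 < ε → ∃ δ : ℝ, 0 < δ ∧ ∀ q ∈ K, dist q c < δ →
    ∃ C ⊆ K ∩ ball c ε, IsPreconnected C ∧ c ∈ C ∧ q ∈ C

theorem sparse_iff {c : ℂ} (h : Pool.Agent.R240.Sparse.SparseAt 2 Pool.Agent.R240.LL.KL c) :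
    Sparse (Pool.Agent.R240.LL.KL * Real.log 2) c := by
  intro q hq hr κ hκ0 hκ
  filter_upwards [h q hq hr κ hκ0 hκ, self_mem_nhdsWithin] with r h1 hr0 n hn
  have hr0' : (0:ℝ) < r := hr0
  refine (h1 n hn).trans ?_
  push_cast
  have h2 : (2:ℝ) ^ (n - 1) ≤ 2 ^ n := pow_le_pow_right₀ (by norm_num) (by omega)
  have h3 : Pool.Agent.R240.LL.KL * n * Real.log 2 = Pool.Agent.R240.LL.KL * Real.log 2 * n := by
    ring
  rw [h3]
  gcongr

/-- **Local connectivity is decided where the superattracting parameters are sparse.** Every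
parameter `p` at which the Mandelbrot set is not locally connected is surrounded by sparse
parameters of the same kind, on almost every small circle about `p`. -/
theorem result :
    ∃ K : ℝ, 0 < K ∧
      (∀ n : ℕ, 1 ≤ n → ∀ (c : ℂ) (r : ℝ), (centres n c r).Finite) ∧
      (LocallyConnectedSpace mandelbrotSet ↔
        ∀ c ∈ frontier mandelbrotSet, Sparse K c → LocallyConnectedAt mandelbrotSet c) ∧
      ∀ p : ℂ, ¬ LocallyConnectedAt mandelbrotSet p →
        ∃ ε : ℝ, 0 < ε ∧ ∀ᵐ s : ℝ, 0 < s → s < ε →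
          ∃ c ∈ frontier mandelbrotSet, dist c p = s ∧ Sparse K c ∧
            ¬ LocallyConnectedAt mandelbrotSet c := by
  have hK := Pool.Agent.R240.LL.KL_pos
  have hl : 0 < Real.log 2 := Real.log_pos (by norm_num)
  refine ⟨Pool.Agent.R240.LL.KL * Real.log 2, by positivity, ?_, ?_, ?_⟩
  · intro n hn c r
    obtain ⟨N, rfl⟩ : ∃ N, n = N + 1 := ⟨n - 1, by omega⟩
    exact (Pool.Agent.R240.LL.ZZ 2 N).finite_toSet.subset fun a ha =>
      (Pool.Agent.R240.LL.mem_ZZ (d := 2) le_rfl).2 ha.2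
  · constructor
    · intro h c hc _
      exact Pool.Agent.R240.Loc.lcs_iff.1 h c
        ((Pool.Agent.H712R2.isCompact_multibrot (d := 2) le_rfl).isClosed.frontier_subset hc)
    · intro h
      refine Pool.Agent.R240.Loc.lcs_iff.2 fun p _ => ?_
      exact Pool.Agent.R240.Sparse.local_iff (d := 2) le_rfl one_pos
        fun c hc _ _ hs => h c hc (sparse_iff hs)
  · intro p hp
    obtain ⟨ε, hε, h1⟩ := Pool.Agent.R240.Sparse.spread (d := 2) le_rfl (p₀ := p) hp
    refine ⟨ε, hε, ?_⟩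
    filter_upwards [h1] with s hs hs0 hsε
    obtain ⟨c, hc, h3, h4, h5⟩ := hs hs0 hsε
    exact ⟨c, hc, h3, sparse_iff h4, h5⟩

end Pool.Agent.Results.MP_c6f924_an.SparseCentres
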